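import Pool.Agent.Lib.MP_144d21_co.XU.Iface

/-!
# MP_144d21_co, project XU: module RANKT (helper72)
-/

set_option autoImplicit false
set_option linter.unusedSectionVars false
set_option linter.unusedSimpArgs false

namespace Pool.Agent.Xu.H72

open Finset Polynomial Pool.Agent.Xu

/-- coordinates of the vertices of the simplex -/
def ev (i : ℕ) (k : Fin 3) : ℝ := if i = k.val + 1 then 1 else 0

/-- the functional of a pair of colours -/
noncomputable def phi (i j : ℕ) : (Fin 3 → ℝ) →ₗ[ℝ] ℝ :=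
  ∑ k : Fin 3, (ev i k - ev j k) • LinearMap.proj k

theorem phi_apply (i j : ℕ) (w : Fin 3 → ℝ) :
    phi i j w = ∑ k : Fin 3, (ev i k - ev j k) * w k := by
  simp [phi, LinearMap.sum_apply]

theorem phi_symm (i j : ℕ) (w : Fin 3 → ℝ) : phi j i w = - phi i j w := by
  rw [phi_apply, phi_apply, ← Finset.sum_neg_distrib]
  exact Finset.sum_congr rfl fun k _ => by ring

theorem eq_zero_of_phi (l : ℕ) (hl : l < 4) (w : Fin 3 → ℝ)
    (h : ∀ s ∈ prs, l = s.1 ∨ l = s.2 → phi s.1 s.2 w = 0) : w = 0 := by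
  have h01 := h (0, 1) (by simp [prs])
  have h02 := h (0, 2) (by simp [prs])
  have h03 := h (0, 3) (by simp [prs])
  have h12 := h (1, 2) (by simp [prs])
  have h13 := h (1, 3) (by simp [prs])
  have h23 := h (2, 3) (by simp [prs])
  simp only [phi_apply, Fin.sum_univ_three, ev] at h01 h02 h03 h12 h13 h23
  norm_num at h01 h02 h03 h12 h13 h23
  have key : w 0 = 0 ∧ w 1 = 0 ∧ w 2 = 0 := by
    interval_cases l
    · exact ⟨by simpa using h01, by simpa using h02, by simpa using h03⟩
    · have a := h01 (Or.inr rfl)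
      have b := h12 (Or.inl rfl)
      have d := h13 (Or.inl rfl)
      refine ⟨by linarith, by linarith, by linarith⟩
    · have a := h02 (Or.inr rfl)
      have b := h12 (Or.inr rfl)
      have d := h23 (Or.inl rfl)
      refine ⟨by linarith, by linarith, by linarith⟩
    · have a := h03 (Or.inr rfl)
      have b := h13 (Or.inr rfl)
      have d := h23 (Or.inr rfl)
      refine ⟨by linarith, by linarith, by linarith⟩
  funext k
  fin_cases k
  · exact key.1
  · exact key.2.1
  · exact key.2.2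

variable {V : Type} [Fintype V] [DecidableEq V]

/-- extension by zero -/
noncomputable def ext0 (S : Finset V) : (S → Fin 3 → ℝ) →ₗ[ℝ] (V → Fin 3 → ℝ) where
  toFun u v := if h : v ∈ S then u ⟨v, h⟩ else 0
  map_add' u u' := by
    funext v
    by_cases h : v ∈ S <;> simp [h]
  map_smul' a u := by
    funext v
    by_cases h : v ∈ S <;> simp [h]

theorem ext0_apply {S : Finset V} (u : S → Fin 3 → ℝ) {v : V} (h : v ∈ S) :
    ext0 S u v = u ⟨v, h⟩ := by
  simp [ext0, h]

/-- the scalar product -/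
noncomputable def pairing : (V → Fin 3 → ℝ) →ₗ[ℝ] Module.Dual ℝ (V → Fin 3 → ℝ) :=
  LinearMap.mk₂ ℝ (fun a b => ∑ v, ∑ k, a v k * b v k)
    (fun a a' b => by simp [add_mul, Finset.sum_add_distrib])
    (fun r a b => by simp [mul_assoc, Finset.mul_sum])
    (fun a b b' => by simp [mul_add, Finset.sum_add_distrib])
    (fun r a b => by simp [mul_left_comm, Finset.mul_sum])

theorem pairing_apply (a b : V → Fin 3 → ℝ) : pairing a b = ∑ v, ∑ k, a v k * b v k := rfl

theorem pairing_row (p : V → Fin 3 → ℝ) (a : V → Fin 3 → ℝ) (x y : V) :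
    pairing a (row p x y) = ∑ k, (p x k - p y k) * (a x k - a y k) := by
  rw [pairing_apply]
  have h1 : ∀ v : V, ∑ k, a v k * row p x y v k =
      (if v = x then ∑ k, a v k * (p x k - p y k) else 0) +
      (if v = y then ∑ k, a v k * (p y k - p x k) else 0) := by
    intro v
    unfold row
    by_cases hx : v = x
    · subst hx
      by_cases hy : v = y
      · subst hy
        simp
      · simp [hy, Pi.single_apply]
    · by_cases hy : v = y
      · subst hy
        simp [hx, Pi.single_apply]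
      · simp [hx, hy, Pi.single_apply]
  rw [Finset.sum_congr rfl fun v _ => h1 v, Finset.sum_add_distrib, Finset.sum_ite_eq',
    Finset.sum_ite_eq']
  simp only [Finset.mem_univ, if_true]
  rw [← Finset.sum_add_distrib]
  exact Finset.sum_congr rfl fun k _ => by ring

theorem rankt : RanktS := by
  intro V _ _ G S c hc
  classical
  obtain ⟨hlt, h0, hprop⟩ := mem_cols.1 hc
  set p := plc c with hp
  let H : (s : ℕ × ℕ) → SimpleGraph {v | v ∈ S ∧ (c v = s.1 ∨ c v = s.2)} :=
    fun s => G.induce {v | v ∈ S ∧ (c v = s.1 ∨ c v = s.2)}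
  have fin : ∀ s, Finite (H s).ConnectedComponent := fun s => inferInstance
  let ft : ∀ s, Fintype (H s).ConnectedComponent := fun s => Fintype.ofFinite _
  let rep : ∀ s, (H s).ConnectedComponent → {v | v ∈ S ∧ (c v = s.1 ∨ c v = s.2)} :=
    fun s C => Quot.out C
  have hrep : ∀ s (C : (H s).ConnectedComponent), (H s).connectedComponentMk (rep s C) = C :=
    fun s C => Quot.out_eq C
  let L1 : (S → Fin 3 → ℝ) →ₗ[ℝ] Module.Dual ℝ (rs p G S) :=
    (Submodule.dualRestrict (rs p G S)).comp (pairing.comp (ext0 S))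
  let L2 : (S → Fin 3 → ℝ) →ₗ[ℝ] ((s : {s // s ∈ prs}) → (H s.1).ConnectedComponent → ℝ) :=
    LinearMap.pi fun s => LinearMap.pi fun C =>
      (phi s.1.1 s.1.2).comp (LinearMap.proj (⟨(rep s.1 C).1, (rep s.1 C).2.1⟩ : S))
  have hinj : Function.Injective (L1.prod L2) := by
    rw [← LinearMap.ker_eq_bot, LinearMap.ker_eq_bot']
    intro u hu
    have hu1 : L1 u = 0 := congrArg Prod.fst hu
    have hu2 : L2 u = 0 := congrArg Prod.snd hu
    -- edges
    have hedge : ∀ x (hx : x ∈ S) y (hy : y ∈ S), G.Adj x y →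
        phi (c x) (c y) (u ⟨x, hx⟩) = phi (c x) (c y) (u ⟨y, hy⟩) := by
      intro x hx y hy hxy
      have hmem : row p x y ∈ rs p G S := Submodule.subset_span ⟨x, hx, y, hy, hxy, rfl⟩
      have h1 : L1 u ⟨row p x y, hmem⟩ = 0 := by rw [hu1]; rfl
      have h2 : L1 u ⟨row p x y, hmem⟩ = pairing (ext0 S u) (row p x y) := rfl
      rw [h2, pairing_row, ext0_apply u hx, ext0_apply u hy] at h1
      have h3 : ∑ k, (p x k - p y k) * (u ⟨x, hx⟩ k - u ⟨y, hy⟩ k) =
          phi (c x) (c y) (u ⟨x, hx⟩) - phi (c x) (c y) (u ⟨y, hy⟩) := by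
        rw [phi_apply, phi_apply, ← Finset.sum_sub_distrib]
        refine Finset.sum_congr rfl fun k _ => ?_
        have e1 : p x k = ev (c x) k := rfl
        have e2 : p y k = ev (c y) k := rfl
        rw [e1, e2]
        ring
      rw [h3] at h1
      linarith
    have hedge' : ∀ x (hx : x ∈ S) y (hy : y ∈ S), G.Adj x y → ∀ i j, c x = i → c y = j →
        phi i j (u ⟨x, hx⟩) = phi i j (u ⟨y, hy⟩) := by
      intro x hx y hy hxy i j hi hj
      subst hi
      subst hj
      exact hedge x hx y hy hxy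
    have hadj : ∀ s (a b : {v | v ∈ S ∧ (c v = s.1 ∨ c v = s.2)}), (H s).Adj a b →
        phi s.1 s.2 (u ⟨a.1, a.2.1⟩) = phi s.1 s.2 (u ⟨b.1, b.2.1⟩) := by
      intro s a b hab
      have hab' : G.Adj a.1 b.1 := hab
      have hne : c a.1 ≠ c b.1 := hprop a.1 a.2.1 b.1 b.2.1 hab'
      rcases a.2.2 with ha | ha <;> rcases b.2.2 with hb | hb
      · exact absurd (ha.trans hb.symm) hne
      · exact hedge' a.1 a.2.1 b.1 b.2.1 hab' _ _ ha hb
      · have h1 := hedge' a.1 a.2.1 b.1 b.2.1 hab' _ _ ha hb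
        rw [phi_symm s.1 s.2, phi_symm s.1 s.2] at h1
        linarith
      · exact absurd (ha.trans hb.symm) hne
    have hwalk : ∀ s (a b : {v | v ∈ S ∧ (c v = s.1 ∨ c v = s.2)}), (H s).Walk a b →
        phi s.1 s.2 (u ⟨a.1, a.2.1⟩) = phi s.1 s.2 (u ⟨b.1, b.2.1⟩) := by
      intro s a b w
      induction w with
      | nil => rfl
      | cons h _ ih => exact (hadj s _ _ h).trans ih
    funext v
    refine eq_zero_of_phi (c v.1) (hlt v.1 v.2) _ fun s hs hvs => ?_
    have hvs' : c v.1 = s.1 ∨ c v.1 = s.2 := hvs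
    let a : {v | v ∈ S ∧ (c v = s.1 ∨ c v = s.2)} := ⟨v.1, v.2, hvs'⟩
    have h1 : (H s).Reachable a (rep s ((H s).connectedComponentMk a)) :=
      SimpleGraph.ConnectedComponent.exact (hrep s ((H s).connectedComponentMk a)).symm
    obtain ⟨w⟩ := h1
    have h2 := hwalk s _ _ w
    have h3 : L2 u ⟨s, hs⟩ ((H s).connectedComponentMk a) = 0 := by rw [hu2]; rfl
    have h4 : L2 u ⟨s, hs⟩ ((H s).connectedComponentMk a) =
      phi s.1 s.2 (u ⟨(rep s ((H s).connectedComponentMk a)).1,
        (rep s ((H s).connectedComponentMk a)).2.1⟩) := rfl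
    rw [h4] at h3
    exact h2.trans h3
  have hfin := LinearMap.finrank_le_finrank_of_injective hinj
  rw [Module.finrank_prod, Subspace.dual_finrank_eq] at hfin
  have h1 : Module.finrank ℝ (S → Fin 3 → ℝ) = 3 * S.card := by
    rw [Module.finrank_pi_fintype]
    simp [mul_comm]
  have h2 : Module.finrank ℝ ((s : {s // s ∈ prs}) → (H s.1).ConnectedComponent → ℝ) =
      kap2 G S c := by
    rw [Module.finrank_pi_fintype]
    unfold kap2
    rw [← Finset.sum_coe_sort prs]
    refine Finset.sum_congr rfl fun s _ => ?_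
    rw [Module.finrank_fintype_fun_eq_card, ← Nat.card_eq_fintype_card]
    rfl
  rw [h1, h2] at hfin
  exact hfin

end Pool.Agent.Xu.H72
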