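import Pool.Agent.Lib.MP_144d21_co.XU.Iface

/-!
# MP_144d21_co, project XU: module CHEQ (helper72)
-/

set_option autoImplicit false
set_option linter.unusedSectionVars false
set_option linter.unusedSimpArgs false

namespace Pool.Agent.Xu.H72

open Finset Polynomial Pool.Agent.Xu

variable {V : Type} [Fintype V] [DecidableEq V]

theorem c4 {D : SimpleGraph V} {S : Finset V} (h : ChordalOn D S) {a b c d : V}
    (ha : a ∈ S) (hb : b ∈ S) (hc : c ∈ S) (hd : d ∈ S)
    (hab : D.Adj a b) (hbc : D.Adj b c) (hcd : D.Adj c d) (hda : D.Adj d a)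
    (hac : a ≠ c) (hbd : b ≠ d) : D.Adj a c ∨ D.Adj b d := by
  by_contra hcon
  rw [not_or] at hcon
  obtain ⟨n1, n2⟩ := hcon
  have n1' : ¬ D.Adj c a := fun h => n1 h.symm
  have n2' : ¬ D.Adj d b := fun h => n2 h.symm
  have e1 := hab.ne
  have e2 := hbc.ne
  have e3 := hcd.ne
  have e4 := hda.ne
  let F : Fin 4 → V := ![a, b, c, d]
  have hF : Function.Injective F := by
    intro i j hij
    fin_cases i <;> fin_cases j <;> simp [F] at hij ⊢ <;> first
      | exact e1 hij | exact e1 hij.symm | exact e2 hij | exact e2 hij.symm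
      | exact e3 hij | exact e3 hij.symm | exact e4 hij | exact e4 hij.symm
      | exact hac hij | exact hac hij.symm | exact hbd hij | exact hbd hij.symm
  have hA : ∀ i j : Fin 4, D.Adj (F i) (F j) ↔ (SimpleGraph.cycleGraph 4).Adj i j := by
    intro i j
    rw [SimpleGraph.cycleGraph_adj]
    fin_cases i <;> fin_cases j <;>
      simp [F, hab, hbc, hcd, hda, n1, n2, n1', n2', hab.symm, hbc.symm, hcd.symm, hda.symm] <;>
      decide
  obtain ⟨i, hi⟩ := h 4 le_rfl ⟨⟨F, hF⟩, fun {i j} => hA i j⟩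
  apply hi
  change F i ∈ S
  fin_cases i
  · exact ha
  · exact hb
  · exact hc
  · exact hd

theorem c5 {D : SimpleGraph V} {S : Finset V} (h : ChordalOn D S) {a b c d e : V}
    (ha : a ∈ S) (hb : b ∈ S) (hc : c ∈ S) (hd : d ∈ S) (he : e ∈ S)
    (hab : D.Adj a b) (hbc : D.Adj b c) (hcd : D.Adj c d) (hde : D.Adj d e) (hea : D.Adj e a)
    (hac : a ≠ c) (had : a ≠ d) (hbd : b ≠ d) (hbe : b ≠ e) (hce : c ≠ e)
    (n1 : ¬ D.Adj a c) (n2 : ¬ D.Adj a d) (n3 : ¬ D.Adj c e) : D.Adj b d ∨ D.Adj b e := by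
  by_contra hcon
  rw [not_or] at hcon
  obtain ⟨n4, n5⟩ := hcon
  have n1' : ¬ D.Adj c a := fun h => n1 h.symm
  have n2' : ¬ D.Adj d a := fun h => n2 h.symm
  have n3' : ¬ D.Adj e c := fun h => n3 h.symm
  have n4' : ¬ D.Adj d b := fun h => n4 h.symm
  have n5' : ¬ D.Adj e b := fun h => n5 h.symm
  have e1 := hab.ne
  have e2 := hbc.ne
  have e3 := hcd.ne
  have e4 := hde.ne
  have e5 := hea.ne
  let F : Fin 5 → V := ![a, b, c, d, e]
  have hF : Function.Injective F := by
    intro i j hij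
    fin_cases i <;> fin_cases j <;> simp [F] at hij ⊢ <;> first
      | exact e1 hij | exact e1 hij.symm | exact e2 hij | exact e2 hij.symm
      | exact e3 hij | exact e3 hij.symm | exact e4 hij | exact e4 hij.symm
      | exact e5 hij | exact e5 hij.symm
      | exact hac hij | exact hac hij.symm | exact hbd hij | exact hbd hij.symm
      | exact had hij | exact had hij.symm | exact hbe hij | exact hbe hij.symm
      | exact hce hij | exact hce hij.symm
  have hA : ∀ i j : Fin 5, D.Adj (F i) (F j) ↔ (SimpleGraph.cycleGraph 5).Adj i j := by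
    intro i j
    rw [SimpleGraph.cycleGraph_adj]
    fin_cases i <;> fin_cases j <;>
      simp [F, hab, hbc, hcd, hde, hea, n1, n2, n3, n4, n5, n1', n2', n3', n4', n5', hab.symm,
        hbc.symm, hcd.symm, hde.symm, hea.symm] <;>
      decide
  obtain ⟨i, hi⟩ := h 5 (by norm_num) ⟨⟨F, hF⟩, fun {i j} => hA i j⟩
  apply hi
  change F i ∈ S
  fin_cases i
  · exact ha
  · exact hb
  · exact hc
  · exact hd
  · exact he

/-- the thirteen edges of `K_2 ∨ C_4` -/
def L13 : Finset (Fin 6 × Fin 6) :=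
  {(0, 1), (1, 2), (2, 3), (3, 0), (4, 0), (4, 1), (4, 2), (4, 3), (5, 0), (5, 1), (5, 2), (5, 3),
    (4, 5)}

theorem card_L13 : (L13.image fun s => s(s.1, s.2)).card = 13 := by decide

theorem ne_ge {G : SimpleGraph V} (φ : Fin 6 → V) (hφ : Function.Injective φ)
    (h : ∀ s ∈ L13, G.Adj (φ s.1) (φ s.2)) : 13 ≤ ne G (univ.image φ) := by
  classical
  have h1 : ((L13.image fun s => s(s.1, s.2)).image (Sym2.map φ)) ⊆ edg G (univ.image φ) := by
    intro e he
    simp only [mem_image] at he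
    obtain ⟨_, ⟨s, hs, rfl⟩, rfl⟩ := he
    unfold edg
    rw [mem_filter]
    refine ⟨mem_univ _, ?_, ?_⟩
    · rw [Sym2.map_mk, SimpleGraph.mem_edgeSet]
      exact h s hs
    · intro x hx
      rw [Sym2.map_mk, Sym2.mem_iff] at hx
      rcases hx with rfl | rfl <;> simp
  have h2 := card_le_card h1
  rwa [card_image_of_injective _ (Sym2.map.injective hφ), card_L13] at h2

theorem cheq (hcyc : CycconS) (hk6 : K6rS) (hrkne : RkneS) : CheqS := by
  intro V _ _ G S p hp v hv w hw hvw hdel hcon h2 hrk n hn f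
  by_contra hall
  rw [not_exists] at hall
  have hS : ∀ i, f i ∈ S := fun i => not_not.1 (hall i)
  -- the cycle passes through both
  have hboth : (∃ i, f i = v) ∧ (∃ i, f i = w) := by
    by_contra hno
    have hnot : ∀ i j, ¬ (f i = v ∧ f j = w) := fun i j h => hno ⟨⟨i, h.1⟩, ⟨j, h.2⟩⟩
    obtain ⟨i, hi⟩ := hdel n hn ⟨⟨f, f.injective⟩, by
      intro i j
      change (del G v w).Adj (f i) (f j) ↔ _
      rw [← f.map_rel_iff]
      exact ⟨fun h => h.1, fun h => ⟨h, hnot i j, fun h' => hnot j i ⟨h'.2, h'.1⟩⟩⟩⟩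
    exact hi (hS i)
  obtain ⟨z1, hz1, z2, hz2, hwz1, hz12, hz2v, hvz1, hwz2, hz1v, hz2w⟩ :=
    hcyc V G S v w hv hw hvw hcon n hn f hS hboth.1 hboth.2
  set D := del G v w with hD
  have nvw : ¬ D.Adj v w := fun h => h.2.1 ⟨rfl, rfl⟩
  have nvz1 : ¬ D.Adj v z1 := fun h => hvz1 h.1
  have nwz2 : ¬ D.Adj w z2 := fun h => hwz2 h.1
  have hvnew : v ≠ w := hvw.ne
  have dwz1 : D.Adj w z1 := ⟨hwz1, fun h => hvnew h.1.symm, fun h => hz1v h.2⟩
  have dz12 : D.Adj z1 z2 := ⟨hz12, fun h => hz1v h.1, fun h => hwz1.ne h.1.symm⟩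
  have dz2v : D.Adj z2 v := ⟨hz2v, fun h => hz2v.ne h.1, fun h => hz2w h.1⟩
  -- a common neighbour is adjacent to both
  have hcommon : ∀ y ∈ nb G S v ∩ nb G S w, y ∈ S ∧ G.Adj v y ∧ G.Adj w y ∧ D.Adj v y ∧
      D.Adj w y ∧ y ≠ z1 ∧ y ≠ z2 ∧ D.Adj y z1 ∧ D.Adj y z2 := by
    intro y hy
    rw [mem_inter, mem_nb, mem_nb] at hy
    obtain ⟨⟨hyS, hvy⟩, -, hwy⟩ := hy
    have dvy : D.Adj v y := ⟨hvy, fun h => hwy.ne h.2.symm, fun h => hvnew h.1⟩
    have dwy : D.Adj w y := ⟨hwy, fun h => hvnew h.1.symm, fun h => hvy.ne h.2.symm⟩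
    have hyz1 : y ≠ z1 := fun h => hvz1 (h ▸ hvy)
    have hyz2 : y ≠ z2 := fun h => hwz2 (h ▸ hwy)
    have h5 := c5 hdel hv hyS hw hz1 hz2 dvy dwy.symm dwz1 dz12 dz2v hvnew hz1v.symm hyz1 hyz2
      hz2w.symm nvw nvz1 nwz2
    have hor1 : D.Adj y z1 → D.Adj y z2 := by
      intro h
      have := c4 hdel hv hyS hz1 hz2 dvy h dz12 dz2v hz1v.symm hyz2
      exact this.resolve_left nvz1
    have hor2 : D.Adj y z2 → D.Adj y z1 := by
      intro h
      have := c4 hdel hyS hw hz1 hz2 dwy.symm dwz1 dz12 h.symm hyz1 hz2w.symm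
      exact this.resolve_right nwz2
    refine ⟨hyS, hvy, hwy, dvy, dwy, hyz1, hyz2, ?_, ?_⟩
    · exact h5.elim id hor2
    · exact h5.elim hor1 id
  obtain ⟨y1, y2, hy12, hyy⟩ := card_eq_two.1 h2
  obtain ⟨hy1S, hvy1, hwy1, dvy1, dwy1, hy1z1, hy1z2, dy1z1, dy1z2⟩ := hcommon y1 (by
    rw [hyy]; simp)
  obtain ⟨hy2S, hvy2, hwy2, dvy2, dwy2, hy2z1, hy2z2, dy2z1, dy2z2⟩ := hcommon y2 (by
    rw [hyy]; simp)
  have hy : D.Adj y1 y2 :=
    (c4 hdel hv hy1S hw hy2S dvy1 dwy1.symm dwy2 dvy2.symm hvnew hy12).resolve_left nvw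
  let φ : Fin 6 → V := ![v, w, z1, z2, y1, y2]
  have hφ : Function.Injective φ := by
    have e1 := hvnew
    have e2 := hz1v
    have e3 := hz2v.ne
    have e4 := hvy1.ne
    have e5 := hvy2.ne
    have e6 := hwz1.ne
    have e7 := hz2w
    have e8 := hwy1.ne
    have e9 := hwy2.ne
    have e10 := hz12.ne
    intro i j hij
    fin_cases i <;> fin_cases j <;> simp [φ] at hij ⊢ <;> first
      | exact e1 hij | exact e1 hij.symm | exact e2 hij | exact e2 hij.symm
      | exact e3 hij | exact e3 hij.symm | exact e4 hij | exact e4 hij.symm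
      | exact e5 hij | exact e5 hij.symm | exact e6 hij | exact e6 hij.symm
      | exact e7 hij | exact e7 hij.symm | exact e8 hij | exact e8 hij.symm
      | exact e9 hij | exact e9 hij.symm | exact e10 hij | exact e10 hij.symm
      | exact hy1z1 hij | exact hy1z1 hij.symm | exact hy1z2 hij | exact hy1z2 hij.symm
      | exact hy2z1 hij | exact hy2z1 hij.symm | exact hy2z2 hij | exact hy2z2 hij.symm
      | exact hy12 hij | exact hy12 hij.symm
  have h13 : 13 ≤ ne G (univ.image φ) := by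
    apply ne_ge φ hφ
    intro s hs
    simp only [L13, mem_insert, mem_singleton] at hs
    rcases hs with rfl | rfl | rfl | rfl | rfl | rfl | rfl | rfl | rfl | rfl | rfl | rfl | rfl
    · exact hvw
    · exact hwz1
    · exact hz12
    · exact hz2v
    · exact hvy1.symm
    · exact hwy1.symm
    · exact dy1z1.1
    · exact dy1z2.1
    · exact hvy2.symm
    · exact hwy2.symm
    · exact dy2z1.1
    · exact dy2z2.1
    · exact hy.1
  have hT : (univ.image φ).card = 6 := by
    rw [card_image_of_injective _ hφ, card_univ, Fintype.card_fin]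
  have hTS : univ.image φ ⊆ S := by
    intro x hx
    rw [mem_image] at hx
    obtain ⟨i, -, rfl⟩ := hx
    fin_cases i
    · exact hv
    · exact hw
    · exact hz1
    · exact hz2
    · exact hy1S
    · exact hy2S
  have h6 := hk6 V G (univ.image φ) p hp hT
  have h7 := (hrkne V G G S (univ.image φ) p).2 hTS (fun _ _ _ _ h => h) hrk
  omega

end Pool.Agent.Xu.H72
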